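import Pool.Agent.helper86.OF.SpecX

/-!
# Edge colouring of dense critical graphs: module KPB (the first phase)
-/

open scoped BigOperators

namespace Pool.Agent.OF

noncomputable section

open Classical

section
variable {V : Type} [Fintype V]

/-- the number of `l < n` with `v ∈ T l` -/
def KPB_c (T : ℕ → Finset V) (n : ℕ) (v : V) : ℕ := ((Finset.range n).filter fun l => v ∈ T l).card

/-- the vertices which have been hit often -/
def KPB_S (θ : ℝ) (T : ℕ → Finset V) (n : ℕ) : Finset V :=
  Finset.univ.filter fun v => θ / 4 * Fintype.card V ≤ (KPB_c T n v : ℝ)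

theorem KPB_dc (T : ℕ → Finset V) (n : ℕ) :
    ∑ v, KPB_c T n v = ∑ l ∈ Finset.range n, (T l).card := by
  unfold KPB_c
  simp only [Finset.card_filter]
  rw [Finset.sum_comm]
  refine Finset.sum_congr rfl fun l _ => ?_
  simp

theorem KPB_cardS (θ : ℝ) (T : ℕ → Finset V) (n : ℕ) :
    ((KPB_S θ T n).card : ℝ) * (θ / 4 * Fintype.card V) ≤
      ((∑ l ∈ Finset.range n, (T l).card : ℕ) : ℝ) := by
  rw [← KPB_dc T n]
  push_cast
  calc ((KPB_S θ T n).card : ℝ) * (θ / 4 * Fintype.card V) =
      ∑ v ∈ KPB_S θ T n, (θ / 4 * Fintype.card V) := by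
        rw [Finset.sum_const, nsmul_eq_mul]
    _ ≤ ∑ v ∈ KPB_S θ T n, (KPB_c T n v : ℝ) := by
        refine Finset.sum_le_sum fun v hv => ?_
        unfold KPB_S at hv
        exact (Finset.mem_filter.mp hv).2
    _ ≤ ∑ v, (KPB_c T n v : ℝ) :=
        Finset.sum_le_sum_of_subset_of_nonneg (Finset.subset_univ _)
          fun v _ _ => Nat.cast_nonneg _

omit [Fintype V] in
/-- the number of hits before the bound `r` is reached is at most `r + 1` -/
theorem KPB_hits (T : ℕ → Finset V) (v : V) (r : ℝ) (hr : 0 ≤ r) (n : ℕ) :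
    (((Finset.range n).filter fun l => v ∈ T l ∧
      (((Finset.range l).filter fun l' => v ∈ T l').card : ℝ) < r).card : ℝ) ≤ r + 1 := by
  induction n with
  | zero => simpa using by linarith
  | succ n ih =>
    rw [Finset.range_add_one, Finset.filter_insert]
    split_ifs with h
    · rw [Finset.card_insert_of_notMem (by simp)]
      have h1 : ((Finset.range n).filter fun l =>
          v ∈ T l ∧ (((Finset.range l).filter fun l' => v ∈ T l').card : ℝ) < r).card ≤
          ((Finset.range n).filter fun l' => v ∈ T l').card := by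
        refine Finset.card_le_card fun l hl => ?_
        rw [Finset.mem_filter] at hl ⊢
        exact ⟨hl.1, hl.2.1⟩
      have h2 : (((Finset.range n).filter fun l =>
          v ∈ T l ∧ (((Finset.range l).filter fun l' => v ∈ T l').card : ℝ) < r).card : ℝ) ≤
          (((Finset.range n).filter fun l' => v ∈ T l').card : ℝ) := by exact_mod_cast h1
      push_cast
      linarith [h.2]
    · exact ih

/-- the properties of the step `j` -/
structure KPB_Step (G : SimpleGraph V) (A X : Finset V) (c : Sym2 V → ℕ) (ε θ : ℝ)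
    (M : ℕ → V → V) (T T2 : ℕ → Finset V) (j : ℕ) : Prop where
  chg : Chg (remG (crossG G A) M (Finset.range j)) (ptn (innerG G A) c j) (M j) (T j)
  cov : ∀ x ∈ X, M j x ≠ x
  cT : (T j).card ≤ 8 * (X.filter fun x => ptn (innerG G A) c j x = x).card + 20
  cT2 : (T2 j).card ≤ 4
  dj : Disjoint (T2 j) (KPB_S θ T2 j)
  mem : ∀ v ∈ T j, (v ∈ X ∧ ptn (innerG G A) c j v = v) ∨ v ∉ KPB_S θ T j ∨ v ∈ T2 j
  xc : xch (ptn (innerG G A) c j) (M j) X ≤ 20 + 10 * (if dns (ptn (innerG G A) c j) X ε then
    (X.filter fun x => ptn (innerG G A) c j x = x).card else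
    (X.filter fun x => ptn (innerG G A) c j x = x ∧
      ε * Fintype.card V ≤ dgs (remG (crossG G A) M (Finset.range j)) Xᶜ x).card)

omit [Fintype V] in
theorem KPB_c_congr (T T' : ℕ → Finset V) (n : ℕ) (h : ∀ l < n, T' l = T l) (v : V) :
    KPB_c T' n v = KPB_c T n v := by
  unfold KPB_c
  congr 1
  refine Finset.filter_congr fun l hl => ?_
  rw [h l (Finset.mem_range.mp hl)]

theorem KPB_S_congr (θ : ℝ) (T T' : ℕ → Finset V) (n : ℕ) (h : ∀ l < n, T' l = T l) :
    KPB_S θ T' n = KPB_S θ T n := by
  unfold KPB_S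
  refine Finset.filter_congr fun v _ => ?_
  rw [KPB_c_congr T T' n h]

omit [Fintype V] in
theorem KPB_rem_congr (G : SimpleGraph V) (M M' : ℕ → V → V) (n : ℕ) (h : ∀ l < n, M' l = M l) :
    remG G M' (Finset.range n) = remG G M (Finset.range n) := by
  ext v w
  unfold remG
  simp only
  refine and_congr_right fun _ => forall₂_congr fun i hi => ?_
  rw [h i (Finset.mem_range.mp hi)]

theorem KPB_Step.congr {G : SimpleGraph V} {A X : Finset V} {c : Sym2 V → ℕ} {ε θ : ℝ}
    {M M' : ℕ → V → V} {T T' T2 T2' : ℕ → Finset V} {j : ℕ}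
    (h : KPB_Step G A X c ε θ M T T2 j) (h1 : ∀ l ≤ j, M' l = M l) (h2 : ∀ l ≤ j, T' l = T l)
    (h3 : ∀ l ≤ j, T2' l = T2 l) : KPB_Step G A X c ε θ M' T' T2' j := by
  have e1 := KPB_rem_congr (crossG G A) M M' j fun l hl => h1 l hl.le
  have e2 := KPB_S_congr θ T T' j fun l hl => h2 l hl.le
  have e3 := KPB_S_congr θ T2 T2' j fun l hl => h3 l hl.le
  have f1 := h1 j le_rfl
  have f2 := h2 j le_rfl
  have f3 := h3 j le_rfl
  constructor
  · rw [e1, f1, f2]; exact h.chg
  · rw [f1]; exact h.cov
  · rw [f2]; exact h.cT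
  · rw [f3]; exact h.cT2
  · rw [f3, e3]; exact h.dj
  · rw [f2, e2, f3]; exact h.mem
  · rw [f1, e1]; exact h.xc

/-- the hypotheses -/
structure KPB_H (G : SimpleGraph V) (A X : Finset V) (k : ℕ) (c : Sym2 V → ℕ) (ε θ δ : ℝ) :
    Prop where
  kN : k ≤ Fintype.card V
  pec : PEC (innerG G A) k c
  dx : ∀ x ∈ X, (k : ℝ) ≤ dg (innerG G A) x + δ * Fintype.card V
  mi : ∀ i < k, (mis (innerG G A) c X i : ℝ) ≤ δ * Fintype.card V

theorem KPB_r (hPTN : PTN_stmt) {G : SimpleGraph V} {A X : Finset V} {k : ℕ} {c : Sym2 V → ℕ}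
    {ε θ δ : ℝ} (H : KPB_H G A X k c ε θ δ) (i : ℕ) (hi : i < k) :
    ((X.filter fun x => ptn (innerG G A) c i x = x).card : ℝ) ≤ δ * Fintype.card V := by
  have h1 : (X.filter fun x => ptn (innerG G A) c i x = x) =
      X.filter fun x => ¬ has (innerG G A) c x i := by
    refine Finset.filter_congr fun x _ => ?_
    rw [← (hPTN V (innerG G A) k c H.pec i).2.2 x, not_not]
  rw [h1]
  exact H.mi i hi

/-- the number of colours missing at a vertex of `X` -/
theorem KPB_mc (hPTN : PTN_stmt) (hSCN : SCN_stmt) {G : SimpleGraph V} {A X : Finset V} {k : ℕ}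
    {c : Sym2 V → ℕ} {ε θ δ : ℝ} (H : KPB_H G A X k c ε θ δ) (n : ℕ) (hn : n ≤ k) (x : V)
    (hx : x ∈ X) :
    (((Finset.range n).filter fun i => ptn (innerG G A) c i x = x).card : ℝ) ≤
      δ * Fintype.card V := by
  have h0 : ((Finset.range n).filter fun i => ptn (innerG G A) c i x = x).card ≤
      ((Finset.range k).filter fun i => ¬ has (innerG G A) c x i).card := by
    refine Finset.card_le_card fun i hi => ?_
    rw [Finset.mem_filter, Finset.mem_range] at hi ⊢
    refine ⟨lt_of_lt_of_le hi.1 hn, ?_⟩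
    rw [← (hPTN V (innerG G A) k c H.pec i).2.2 x, not_not]
    exact hi.2
  have h1 := hSCN V (innerG G A) k c H.pec x
  have h2 := Finset.card_filter_add_card_filter_not (s := Finset.range k)
    (fun i => has (innerG G A) c x i)
  rw [h1, Finset.card_range] at h2
  have h3 := H.dx x hx
  have h4 : (((Finset.range n).filter fun i => ptn (innerG G A) c i x = x).card : ℝ) ≤
      (((Finset.range k).filter fun i => ¬ has (innerG G A) c x i).card : ℝ) := by
    exact_mod_cast h0
  have h5 : (dg (innerG G A) x : ℝ) +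
      (((Finset.range k).filter fun i => ¬ has (innerG G A) c x i).card : ℝ) = k := by
    exact_mod_cast h2
  linarith

/-- a vertex is touched at most `θ N` times -/
theorem KPB_touch (hPTN : PTN_stmt) (hSCN : SCN_stmt) {G : SimpleGraph V} {A X : Finset V} {k : ℕ}
    {c : Sym2 V → ℕ} {ε θ δ : ℝ} (H : KPB_H G A X k c ε θ δ) {M : ℕ → V → V}
    {T T2 : ℕ → Finset V} {n : ℕ} (hn : n ≤ k)
    (hst : ∀ j < n, KPB_Step G A X c ε θ M T T2 j) (hθ : 0 < θ) (hδ0 : 0 < δ)
    (hδ : δ ≤ θ / 4) (hN : 8 ≤ θ * Fintype.card V) (v : V) :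
    (KPB_c T n v : ℝ) ≤ θ * Fintype.card V := by
  set N : ℝ := (Fintype.card V : ℝ) with hNdef
  have hN0 : 0 ≤ N := Nat.cast_nonneg _
  set s1 := (Finset.range n).filter fun i => v ∈ X ∧ ptn (innerG G A) c i v = v with hs1
  set s2 := (Finset.range n).filter fun l => v ∈ T l ∧
    (((Finset.range l).filter fun l' => v ∈ T l').card : ℝ) < θ / 4 * N with hs2
  set s3 := (Finset.range n).filter fun l => v ∈ T2 l ∧
    (((Finset.range l).filter fun l' => v ∈ T2 l').card : ℝ) < θ / 4 * N with hs3
  have hsub : ((Finset.range n).filter fun l => v ∈ T l) ⊆ s1 ∪ s2 ∪ s3 := by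
    intro l hl
    obtain ⟨hl1, hl2⟩ := Finset.mem_filter.mp hl
    have hln := Finset.mem_range.mp hl1
    rw [Finset.mem_union, Finset.mem_union]
    rcases (hst l hln).mem v hl2 with h | h | h
    · left; left
      exact Finset.mem_filter.mpr ⟨hl1, h⟩
    · left; right
      refine Finset.mem_filter.mpr ⟨hl1, hl2, ?_⟩
      unfold KPB_S at h
      rw [Finset.mem_filter, not_and] at h
      have := h (Finset.mem_univ v)
      push Not at this
      exact this
    · right
      refine Finset.mem_filter.mpr ⟨hl1, h, ?_⟩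
      have h1 : v ∉ KPB_S θ T2 l := fun h2 => Finset.disjoint_left.mp (hst l hln).dj h h2
      unfold KPB_S at h1
      rw [Finset.mem_filter, not_and] at h1
      have := h1 (Finset.mem_univ v)
      push Not at this
      exact this
  have hc : (KPB_c T n v : ℝ) ≤ (s1.card : ℝ) + s2.card + s3.card := by
    have h1 := Finset.card_le_card hsub
    have h2 := Finset.card_union_le (s1 ∪ s2) s3
    have h3 := Finset.card_union_le s1 s2
    have h4 : KPB_c T n v ≤ s1.card + s2.card + s3.card := by
      unfold KPB_c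
      omega
    exact_mod_cast h4
  have hr0 : 0 ≤ θ / 4 * N := by positivity
  have e2 : (s2.card : ℝ) ≤ θ / 4 * N + 1 := KPB_hits T v _ hr0 n
  have e3 : (s3.card : ℝ) ≤ θ / 4 * N + 1 := KPB_hits T2 v _ hr0 n
  have e1 : (s1.card : ℝ) ≤ δ * N := by
    by_cases hv : v ∈ X
    · have h1 := KPB_mc hPTN hSCN H n hn v hv
      have h2 : s1 = (Finset.range n).filter fun i => ptn (innerG G A) c i v = v := by
        refine Finset.filter_congr fun i _ => ?_
        simp [hv]
      rw [h2]
      exact h1
    · have h2 : s1 = ∅ := by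
        refine Finset.filter_eq_empty_iff.mpr fun i _ h => hv h.1
      rw [h2]
      simp only [Finset.card_empty, Nat.cast_zero]
      positivity
  have e4 : δ * N ≤ θ / 4 * N := mul_le_mul_of_nonneg_right hδ hN0
  linarith

/-- `Σ_l #{x ∈ X : m_l x ∉ X} ≤ U` -/
theorem KPB_cr (hPTN : PTN_stmt) {G : SimpleGraph V} {A X : Finset V} {k : ℕ} {c : Sym2 V → ℕ}
    {ε θ δ : ℝ} (H : KPB_H G A X k c ε θ δ) (n : ℕ) :
    ∑ l ∈ Finset.range n, (X.filter fun x => ptn (innerG G A) c l x ∉ X).card ≤ ep G X Xᶜ := by
  have h1 : ∑ l ∈ Finset.range n, (X.filter fun x => ptn (innerG G A) c l x ∉ X).card =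
      ∑ x ∈ X, ((Finset.range n).filter fun l => ptn (innerG G A) c l x ∉ X).card := by
    simp only [Finset.card_filter]
    exact Finset.sum_comm
  rw [h1]
  unfold ep dgs
  refine Finset.sum_le_sum fun x hx => ?_
  refine Finset.card_le_card_of_injOn (fun l => ptn (innerG G A) c l x) ?_ ?_
  · intro l hl
    obtain ⟨-, hl2⟩ := Finset.mem_filter.mp (Finset.mem_coe.mp hl)
    have hne : ptn (innerG G A) c l x ≠ x := fun h => hl2 (by rw [h]; exact hx)
    have h2 := (hPTN V (innerG G A) k c H.pec l).1.2 x hne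
    rw [Finset.mem_coe, Finset.mem_filter, Finset.mem_compl]
    exact ⟨hl2, h2.1⟩
  · intro l hl l' hl' he
    obtain ⟨-, hl2⟩ := Finset.mem_filter.mp (Finset.mem_coe.mp hl)
    have hne : ptn (innerG G A) c l x ≠ x := fun h => hl2 (by rw [h]; exact hx)
    have h2 := (hPTN V (innerG G A) k c H.pec l).1.2 x hne
    have h3 := ((hPTN V (innerG G A) k c H.pec l).2.1 x _ h2).1 rfl
    have h4 := ((hPTN V (innerG G A) k c H.pec l').2.1 x _ h2).1 he.symm
    rw [← h3, ← h4]

/-- the sum of the `xch` -/
theorem KPB_xs (hPTN : PTN_stmt) (hSCN : SCN_stmt) {G : SimpleGraph V} {A X : Finset V} {k : ℕ}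
    {c : Sym2 V → ℕ} {ε θ δ : ℝ} (H : KPB_H G A X k c ε θ δ) {M : ℕ → V → V}
    {T T2 : ℕ → Finset V} {n : ℕ} (hn : n ≤ k)
    (hst : ∀ j < n, KPB_Step G A X c ε θ M T T2 j) (hε : 0 < ε) (hδ0 : 0 < δ) (η : ℝ)
    (hδ : 60 * δ ≤ ε * η) (hU : 40 * (Fintype.card V : ℝ) ≤ η * ep G X Xᶜ) :
    ((∑ l ∈ Finset.range n, xch (ptn (innerG G A) c l) (M l) X : ℕ) : ℝ) ≤ η * ep G X Xᶜ := by
  set N : ℝ := (Fintype.card V : ℝ) with hNdef
  have hN0 : 0 ≤ N := Nat.cast_nonneg _
  set U : ℝ := (ep G X Xᶜ : ℝ) with hUdef
  have hU0 : 0 ≤ U := Nat.cast_nonneg _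
  set Hv := X.filter fun x => ε * N ≤ (dgs G Xᶜ x : ℝ) with hHv
  -- one step
  have hone : ∀ l ∈ Finset.range n, ((xch (ptn (innerG G A) c l) (M l) X : ℕ) : ℝ) ≤
      20 + 10 * ((if dns (ptn (innerG G A) c l) X ε then δ * N else 0) +
        ((Hv.filter fun x => ptn (innerG G A) c l x = x).card : ℝ)) := by
    intro l hl
    have hln := Finset.mem_range.mp hl
    have h1 := (hst l hln).xc
    have h2 : ((xch (ptn (innerG G A) c l) (M l) X : ℕ) : ℝ) ≤
        20 + 10 * (((if dns (ptn (innerG G A) c l) X ε then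
          (X.filter fun x => ptn (innerG G A) c l x = x).card else
          (X.filter fun x => ptn (innerG G A) c l x = x ∧
            ε * Fintype.card V ≤ dgs (remG (crossG G A) M (Finset.range l)) Xᶜ x).card) : ℕ) : ℝ) := by
      exact_mod_cast h1
    have h3 : (((if dns (ptn (innerG G A) c l) X ε then
          (X.filter fun x => ptn (innerG G A) c l x = x).card else
          (X.filter fun x => ptn (innerG G A) c l x = x ∧
            ε * Fintype.card V ≤ dgs (remG (crossG G A) M (Finset.range l)) Xᶜ x).card) : ℕ) : ℝ) ≤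
        ((if dns (ptn (innerG G A) c l) X ε then δ * N else 0) +
        ((Hv.filter fun x => ptn (innerG G A) c l x = x).card : ℝ)) := by
      split_ifs with hd
      · have h4 := KPB_r hPTN H l (lt_of_lt_of_le hln hn)
        have h5 : (0 : ℝ) ≤ ((Hv.filter fun x => ptn (innerG G A) c l x = x).card : ℝ) :=
          Nat.cast_nonneg _
        linarith
      · rw [zero_add]
        have h4 : (X.filter fun x => ptn (innerG G A) c l x = x ∧
            ε * Fintype.card V ≤ dgs (remG (crossG G A) M (Finset.range l)) Xᶜ x).card ≤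
            (Hv.filter fun x => ptn (innerG G A) c l x = x).card := by
          refine Finset.card_le_card fun x hx => ?_
          obtain ⟨hx1, hx2, hx3⟩ := Finset.mem_filter.mp hx
          refine Finset.mem_filter.mpr ⟨Finset.mem_filter.mpr ⟨hx1, hx3.trans ?_⟩, hx2⟩
          have h5 : dgs (remG (crossG G A) M (Finset.range l)) Xᶜ x ≤ dgs G Xᶜ x := by
            unfold dgs
            refine Finset.card_le_card fun w hw => ?_
            obtain ⟨hw1, hw2⟩ := Finset.mem_filter.mp hw
            exact Finset.mem_filter.mpr ⟨hw1, hw2.1.1⟩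
          exact_mod_cast h5
        exact_mod_cast h4
    linarith
  have hsum := Finset.sum_le_sum hone
  rw [Finset.sum_add_distrib, ← Finset.mul_sum, Finset.sum_add_distrib, Finset.sum_const,
    Finset.card_range, nsmul_eq_mul] at hsum
  -- dense classes
  have hd1 : ∑ l ∈ Finset.range n, (if dns (ptn (innerG G A) c l) X ε then δ * N else 0) =
      (((Finset.range n).filter fun l => dns (ptn (innerG G A) c l) X ε).card : ℝ) * (δ * N) := by
    rw [← Finset.sum_filter, Finset.sum_const, nsmul_eq_mul]
  have hd2 : (((Finset.range n).filter fun l => dns (ptn (innerG G A) c l) X ε).card : ℝ) *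
      (ε / 2 * N) ≤ U := by
    have h1 : (((Finset.range n).filter fun l => dns (ptn (innerG G A) c l) X ε).card : ℝ) *
        (ε / 2 * N) ≤ ∑ l ∈ (Finset.range n).filter fun l => dns (ptn (innerG G A) c l) X ε,
          ((X.filter fun x => ptn (innerG G A) c l x ∉ X).card : ℝ) := by
      rw [← nsmul_eq_mul, ← Finset.sum_const]
      refine Finset.sum_le_sum fun l hl => ?_
      exact (Finset.mem_filter.mp hl).2
    have h2 : ∑ l ∈ (Finset.range n).filter fun l => dns (ptn (innerG G A) c l) X ε,
          ((X.filter fun x => ptn (innerG G A) c l x ∉ X).card : ℝ) ≤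
        ∑ l ∈ Finset.range n, ((X.filter fun x => ptn (innerG G A) c l x ∉ X).card : ℝ) :=
      Finset.sum_le_sum_of_subset_of_nonneg (Finset.filter_subset _ _)
        fun l _ _ => Nat.cast_nonneg _
    have h3 := KPB_cr hPTN H n
    have h4 : ∑ l ∈ Finset.range n, ((X.filter fun x => ptn (innerG G A) c l x ∉ X).card : ℝ) ≤
        U := by
      rw [hUdef]
      exact_mod_cast h3
    linarith
  -- heavy vertices
  have hh1 : ∑ l ∈ Finset.range n, ((Hv.filter fun x => ptn (innerG G A) c l x = x).card : ℝ) ≤
      (Hv.card : ℝ) * (δ * N) := by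
    have h1 : ∑ l ∈ Finset.range n, ((Hv.filter fun x => ptn (innerG G A) c l x = x).card : ℝ) =
        ∑ x ∈ Hv, (((Finset.range n).filter fun l => ptn (innerG G A) c l x = x).card : ℝ) := by
      have h2 : ∑ l ∈ Finset.range n, (Hv.filter fun x => ptn (innerG G A) c l x = x).card =
          ∑ x ∈ Hv, ((Finset.range n).filter fun l => ptn (innerG G A) c l x = x).card := by
        simp only [Finset.card_filter]
        exact Finset.sum_comm
      exact_mod_cast h2
    rw [h1, ← nsmul_eq_mul, ← Finset.sum_const]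
    refine Finset.sum_le_sum fun x hx => ?_
    exact KPB_mc hPTN hSCN H n hn x (Finset.mem_filter.mp hx).1
  have hh2 : (Hv.card : ℝ) * (ε * N) ≤ U := by
    rw [← nsmul_eq_mul, ← Finset.sum_const]
    have h1 : ∑ x ∈ Hv, (ε * N) ≤ ∑ x ∈ Hv, (dgs G Xᶜ x : ℝ) :=
      Finset.sum_le_sum fun x hx => (Finset.mem_filter.mp hx).2
    have h2 : ∑ x ∈ Hv, (dgs G Xᶜ x : ℝ) ≤ ∑ x ∈ X, (dgs G Xᶜ x : ℝ) :=
      Finset.sum_le_sum_of_subset_of_nonneg (Finset.filter_subset _ _)
        fun x _ _ => Nat.cast_nonneg _
    have h3 : ∑ x ∈ X, (dgs G Xᶜ x : ℝ) = U := by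
      rw [hUdef]
      unfold ep
      push_cast
      rfl
    linarith
  rw [hd1] at hsum
  have hnN : (n : ℝ) ≤ N := by
    have := le_trans hn H.kN
    rw [hNdef]
    exact_mod_cast this
  set D : ℝ := (((Finset.range n).filter fun l => dns (ptn (innerG G A) c l) X ε).card : ℝ)
    with hD
  have q1 : D * (δ * N) * ε ≤ 2 * δ * U := by
    have : D * (δ * N) * ε = 2 * δ * (D * (ε / 2 * N)) := by ring
    rw [this]
    exact mul_le_mul_of_nonneg_left hd2 (by positivity)
  have q2 : (Hv.card : ℝ) * (δ * N) * ε ≤ δ * U := by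
    have : (Hv.card : ℝ) * (δ * N) * ε = δ * ((Hv.card : ℝ) * (ε * N)) := by ring
    rw [this]
    exact mul_le_mul_of_nonneg_left hh2 hδ0.le
  have q3 : (D * (δ * N) + (Hv.card : ℝ) * (δ * N)) * ε ≤ 3 * δ * U := by linarith
  have q4 : 3 * δ * U ≤ ε * (η * U / 20) := by
    have : 60 * δ * U ≤ ε * η * U := mul_le_mul_of_nonneg_right hδ hU0
    linarith
  have q5 : D * (δ * N) + (Hv.card : ℝ) * (δ * N) ≤ η * U / 20 := by
    have : (D * (δ * N) + (Hv.card : ℝ) * (δ * N)) * ε ≤ (η * U / 20) * ε := by linarith
    exact le_of_mul_le_mul_right this hε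
  have q6 : ((∑ l ∈ Finset.range n, xch (ptn (innerG G A) c l) (M l) X : ℕ) : ℝ) =
      ∑ l ∈ Finset.range n, ((xch (ptn (innerG G A) c l) (M l) X : ℕ) : ℝ) := by
    push_cast
    rfl
  rw [q6]
  linarith

/-- only touched edges are removed: cross degrees -/
theorem KPB_deg (hPTN : PTN_stmt) {G : SimpleGraph V} {A X : Finset V} {k : ℕ}
    {c : Sym2 V → ℕ} {ε θ δ : ℝ} (H : KPB_H G A X k c ε θ δ) {M : ℕ → V → V}
    {T T2 : ℕ → Finset V} {n : ℕ}
    (hst : ∀ j < n, KPB_Step G A X c ε θ M T T2 j) (x : V) :
    dg (crossG G A) x ≤ dg (remG (crossG G A) M (Finset.range n)) x + KPB_c T n x := by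
  unfold dg dgs KPB_c
  have h1 : (Finset.univ.filter fun w => (crossG G A).Adj x w) ⊆
      (Finset.univ.filter fun w => (remG (crossG G A) M (Finset.range n)).Adj x w) ∪
      ((Finset.range n).filter fun l => x ∈ T l).image (fun l => M l x) := by
    intro w hw
    have hw2 := (Finset.mem_filter.mp hw).2
    rw [Finset.mem_union]
    by_cases h : ∀ i ∈ Finset.range n, M i x ≠ w ∧ M i w ≠ x
    · left
      exact Finset.mem_filter.mpr ⟨Finset.mem_univ _, hw2, h⟩
    · right
      push Not at h
      obtain ⟨i, hi, h2⟩ := h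
      have hin := Finset.mem_range.mp hi
      have h3 : M i x = w := by
        by_contra h4
        have h5 := h2 h4
        rw [← h5] at h4
        exact h4 ((hst i hin).chg.inv w)
      refine Finset.mem_image.mpr ⟨i, Finset.mem_filter.mpr ⟨hi, ?_⟩, h3⟩
      by_contra h4
      have h5 := (hst i hin).chg.off x h4
      rw [h3] at h5
      have hne : ptn (innerG G A) c i x ≠ x := by
        rw [← h5]
        exact (hw2.1.ne).symm
      have h6 := (hPTN V (innerG G A) k c H.pec i).1.2 x hne
      rw [← h5] at h6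
      exact hw2.2 h6.2
  have h2 := Finset.card_le_card h1
  have h3 := Finset.card_union_le
    (Finset.univ.filter fun w => (remG (crossG G A) M (Finset.range n)).Adj x w)
    (((Finset.range n).filter fun l => x ∈ T l).image (fun l => M l x))
  have h4 := Finset.card_image_le (s := (Finset.range n).filter fun l => x ∈ T l)
    (f := fun l => M l x)
  omega

/-- the cross edges between `X` and the rest -/
theorem KPB_ep (hPTN : PTN_stmt) {G : SimpleGraph V} {A X : Finset V} {k : ℕ}
    {c : Sym2 V → ℕ} {ε θ δ : ℝ} (H : KPB_H G A X k c ε θ δ) {M : ℕ → V → V}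
    {T T2 : ℕ → Finset V} {n : ℕ}
    (hst : ∀ j < n, KPB_Step G A X c ε θ M T T2 j) :
    ep (crossG G A) X Xᶜ ≤ ep (remG (crossG G A) M (Finset.range n)) X Xᶜ +
      ∑ l ∈ Finset.range n, xch (ptn (innerG G A) c l) (M l) X := by
  have h0 : ∑ l ∈ Finset.range n, xch (ptn (innerG G A) c l) (M l) X =
      ∑ x ∈ X, ((Finset.range n).filter fun l => M l x ≠ ptn (innerG G A) c l x ∧
        (M l x ∉ X ∨ ptn (innerG G A) c l x ∉ X)).card := by
    unfold xch
    simp only [Finset.card_filter]
    exact Finset.sum_comm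
  rw [h0]
  unfold ep
  rw [← Finset.sum_add_distrib]
  refine Finset.sum_le_sum fun x hx => ?_
  unfold dgs
  have h1 : (Xᶜ.filter fun w => (crossG G A).Adj x w) ⊆
      (Xᶜ.filter fun w => (remG (crossG G A) M (Finset.range n)).Adj x w) ∪
      ((Finset.range n).filter fun l => M l x ≠ ptn (innerG G A) c l x ∧
        (M l x ∉ X ∨ ptn (innerG G A) c l x ∉ X)).image (fun l => M l x) := by
    intro w hw
    obtain ⟨hw1, hw2⟩ := Finset.mem_filter.mp hw
    rw [Finset.mem_union]
    by_cases h : ∀ i ∈ Finset.range n, M i x ≠ w ∧ M i w ≠ x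
    · left
      exact Finset.mem_filter.mpr ⟨hw1, hw2, h⟩
    · right
      push Not at h
      obtain ⟨i, hi, h2⟩ := h
      have hin := Finset.mem_range.mp hi
      have h3 : M i x = w := by
        by_contra h4
        have h5 := h2 h4
        rw [← h5] at h4
        exact h4 ((hst i hin).chg.inv w)
      refine Finset.mem_image.mpr ⟨i, Finset.mem_filter.mpr ⟨hi, ?_, ?_⟩, h3⟩
      · intro h5
        rw [h3] at h5
        have hne : ptn (innerG G A) c i x ≠ x := by
          rw [← h5]
          exact (hw2.1.ne).symm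
        have h6 := (hPTN V (innerG G A) k c H.pec i).1.2 x hne
        rw [← h5] at h6
        exact hw2.2 h6.2
      · left
        rw [h3]
        exact Finset.mem_compl.mp hw1
  have h2 := Finset.card_le_card h1
  have h3 := Finset.card_union_le
    (Xᶜ.filter fun w => (remG (crossG G A) M (Finset.range n)).Adj x w)
    (((Finset.range n).filter fun l => M l x ≠ ptn (innerG G A) c l x ∧
        (M l x ∉ X ∨ ptn (innerG G A) c l x ∉ X)).image (fun l => M l x))
  have h4 := Finset.card_image_le (s := (Finset.range n).filter fun l =>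
    M l x ≠ ptn (innerG G A) c l x ∧ (M l x ∉ X ∨ ptn (innerG G A) c l x ∉ X))
    (f := fun l => M l x)
  omega

/-- extraction of the output -/
theorem KPB_out (hPTN : PTN_stmt) {G : SimpleGraph V} {A X : Finset V} {k : ℕ}
    {c : Sym2 V → ℕ} {ε θ δ : ℝ} (H : KPB_H G A X k c ε θ δ) {M : ℕ → V → V}
    {T T2 : ℕ → Finset V}
    (hst : ∀ j < k, KPB_Step G A X c ε θ M T T2 j) : KOut G A X k c M := by
  have hdis : ∀ i < k, ∀ j < k, i < j → ∀ v, M j v ≠ v → M i v ≠ M j v := by
    intro i hi j hj hij v hv he
    rcases (hst j hj).chg.edg v hv with h | h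
    · exact (h.2 i (Finset.mem_range.mpr hij)).1 he
    · have hne : ptn (innerG G A) c j v ≠ v := by rw [← h]; exact hv
      have h2 := (hPTN V (innerG G A) k c H.pec j).1.2 v hne
      have hc := ((hPTN V (innerG G A) k c H.pec j).2.1 v _ h2).1 rfl
      rw [← h, ← he] at h2 hc
      rcases (hst i hi).chg.edg v (by rw [he]; exact hv) with h3 | h3
      · exact h3.1.2 h2.2
      · have hne' : ptn (innerG G A) c i v ≠ v := by rw [← h3, he]; exact hv
        have h4 := (hPTN V (innerG G A) k c H.pec i).1.2 v hne'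
        have hc' := ((hPTN V (innerG G A) k c H.pec i).2.1 v _ h4).1 rfl
        rw [← h3, hc] at hc'
        omega
  constructor
  · intro i hi
    refine ⟨(hst i hi).chg.inv, fun v hv => ?_⟩
    rcases (hst i hi).chg.edg v hv with h | h
    · exact h.1.1
    · have hne : ptn (innerG G A) c i v ≠ v := by rw [← h]; exact hv
      have h2 := (hPTN V (innerG G A) k c H.pec i).1.2 v hne
      rw [h]
      exact h2.1
  · intro i hi
    exact (hst i hi).cov
  · intro i hi v hv hA
    rcases (hst i hi).chg.edg v hv with h | h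
    · exact absurd hA h.1.2
    · have hne : ptn (innerG G A) c i v ≠ v := by rw [← h]; exact hv
      have h2 := (hPTN V (innerG G A) k c H.pec i).1.2 v hne
      have hc := ((hPTN V (innerG G A) k c H.pec i).2.1 v _ h2).1 rfl
      rw [← h] at hc
      exact hc
  · intro i hi j hj hij v hv he
    rcases lt_or_gt_of_ne hij with h | h
    · exact hdis i hi j hj h v (by rw [← he]; exact hv) he
    · exact hdis j hj i hi h v hv he.symm


end

theorem KPB (hKSB : KSB_stmt) (hPTN : PTN_stmt) (hSCN : SCN_stmt) : KPB_stmt := by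
  intro ε θ θ2 hε hε1 hθ hθε hθ2
  set η : ℝ := min θ2 (1 / 12) with hη
  have hη0 : 0 < η := lt_min hθ2 (by norm_num)
  have hη1 : η ≤ 1 / 12 := min_le_right _ _
  have hη2 : η ≤ θ2 := min_le_left _ _
  -- the constants
  set δ : ℝ := min (min (θ / 4) (ε * η / 60)) (min (ε / 1000) (ε * θ / 640)) with hδdef
  have hδ0 : 0 < δ := by
    rw [hδdef]
    exact lt_min (lt_min (by positivity) (by positivity)) (lt_min (by positivity) (by positivity))
  have hδ1 : δ ≤ θ / 4 := (min_le_left _ _).trans (min_le_left _ _)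
  have hδ2 : 60 * δ ≤ ε * η := by
    have : δ ≤ ε * η / 60 := (min_le_left _ _).trans (min_le_right _ _)
    linarith
  have hδ3 : δ ≤ ε / 1000 := (min_le_right _ _).trans (min_le_left _ _)
  have hδ4 : 640 * δ ≤ ε * θ := by
    have : δ ≤ ε * θ / 640 := (min_le_right _ _).trans (min_le_right _ _)
    linarith
  set C0 : ℝ := 40 / η + 4 * (128 / θ + 5) with hC0
  have hC0p : 0 < C0 := by positivity
  obtain ⟨N0, hN0⟩ := exists_nat_ge (1000 / ε + 8 / θ + 1600 / (θ * ε))
  refine ⟨δ, C0, N0, hδ0, hC0p, ?_⟩
  intro V _ G A X k c hN hk hpec hA hAc hcd hdx hmi hU1 hU2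
  have hNr : (N0 : ℝ) ≤ Fintype.card V := by exact_mod_cast hN
  set N : ℝ := (Fintype.card V : ℝ) with hNdef
  have hNb : 1000 / ε + 8 / θ + 1600 / (θ * ε) ≤ N := hN0.trans hNr
  have hb1 : 1000 ≤ ε * N := by
    have h1 : 1000 / ε ≤ N := by
      have : 0 ≤ 8 / θ + 1600 / (θ * ε) := by positivity
      linarith
    rw [div_le_iff₀ hε] at h1
    linarith
  have hb2 : 8 ≤ θ * N := by
    have h1 : 8 / θ ≤ N := by
      have : 0 ≤ 1000 / ε + 1600 / (θ * ε) := by positivity
      linarith
    rw [div_le_iff₀ hθ] at h1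
    linarith
  have hb3 : 1600 ≤ θ * ε * N := by
    have h1 : 1600 / (θ * ε) ≤ N := by
      have : 0 ≤ 1000 / ε + 8 / θ := by positivity
      linarith
    rw [div_le_iff₀ (by positivity)] at h1
    linarith
  have hNpos : 0 < N := by
    by_contra h
    push Not at h
    have : ε * N ≤ 0 := mul_nonpos_of_nonneg_of_nonpos hε.le h
    linarith
  set U : ℝ := (ep G X Xᶜ : ℝ) with hUdef
  have hU0 : 0 ≤ U := Nat.cast_nonneg _
  have hUη : 40 * N ≤ η * U := by
    have h1 : 40 / η * N ≤ C0 * N := by
      refine mul_le_mul_of_nonneg_right ?_ hNpos.le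
      rw [hC0]
      have : 0 ≤ 4 * (128 / θ + 5) := by positivity
      linarith
    have h2 : 40 / η * N ≤ U := h1.trans hU1
    have h3 : 40 * N = η * (40 / η * N) := by field_simp
    rw [h3]
    exact mul_le_mul_of_nonneg_left h2 hη0.le
  have H : KPB_H G A X k c ε θ δ := ⟨hk, hpec, hdx, hmi⟩
  -- the induction
  have hind : ∀ n ≤ k, ∃ (M : ℕ → V → V) (T T2 : ℕ → Finset V),
      ∀ j < n, KPB_Step G A X c ε θ M T T2 j := by
    intro n
    induction n with
    | zero => intro _; exact ⟨fun _ => id, fun _ => ∅, fun _ => ∅, fun j hj => absurd hj (by omega)⟩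
    | succ n ih =>
      intro hn
      obtain ⟨M, T, T2, hst⟩ := ih (by omega)
      have hnk : n < k := by omega
      have hP := hPTN V (innerG G A) k c hpec n
      have hr := KPB_r hPTN H n hnk
      have hnN : (n : ℝ) ≤ N := by
        have : n ≤ Fintype.card V := hnk.le.trans hk
        rw [hNdef]
        exact_mod_cast this
      have htouch := KPB_touch hPTN hSCN H hnk.le hst hθ hδ0 hδ1 hb2
      have hxs := KPB_xs hPTN hSCN H hnk.le hst hε hδ0 η hδ2 hUη
      -- the set S
      have hS : ((KPB_S θ T n).card : ℝ) ≤ ε / 10 * N := by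
        have h1 := KPB_cardS θ T n
        have h2 : ((∑ l ∈ Finset.range n, (T l).card : ℕ) : ℝ) ≤ N * (8 * (δ * N) + 20) := by
          push_cast
          have h3 : ∀ l ∈ Finset.range n, ((T l).card : ℝ) ≤ 8 * (δ * N) + 20 := by
            intro l hl
            have hln := Finset.mem_range.mp hl
            have h4 := (hst l hln).cT
            have h5 := KPB_r hPTN H l (hln.trans hnk)
            have h6 : ((T l).card : ℝ) ≤
                8 * ((X.filter fun x => ptn (innerG G A) c l x = x).card : ℝ) + 20 := by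
              exact_mod_cast h4
            linarith
          have h4 := Finset.sum_le_sum h3
          rw [Finset.sum_const, Finset.card_range, nsmul_eq_mul] at h4
          have h5 : (0 : ℝ) ≤ 8 * (δ * N) + 20 := by positivity
          exact h4.trans (mul_le_mul_of_nonneg_right hnN h5)
        have h3 : ((KPB_S θ T n).card : ℝ) * (θ / 4 * N) ≤ N * (8 * (δ * N) + 20) := h1.trans h2
        have h4 : ((KPB_S θ T n).card : ℝ) * (θ / 4) ≤ 8 * (δ * N) + 20 := by
          have : ((KPB_S θ T n).card : ℝ) * (θ / 4) * N ≤ (8 * (δ * N) + 20) * N := by linarith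
          exact le_of_mul_le_mul_right this hNpos
        have h5 : 8 * (δ * N) + 20 ≤ ε / 10 * N * (θ / 4) := by
          have h6 : 640 * δ * N ≤ ε * θ * N := mul_le_mul_of_nonneg_right hδ4 hNpos.le
          have h7 : ε / 10 * N * (θ / 4) = ε * θ * N / 40 := by ring
          rw [h7]
          have h8 : θ * ε * N = ε * θ * N := by ring
          rw [h8] at hb3
          linarith
        have h6 : ((KPB_S θ T n).card : ℝ) * (θ / 4) ≤ ε / 10 * N * (θ / 4) := h4.trans h5
        exact le_of_mul_le_mul_right h6 (by positivity)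
      -- the set S2
      have hS2 : ((KPB_S θ T2 n).card : ℝ) ≤ 16 / θ := by
        have h1 := KPB_cardS θ T2 n
        have h2 : ((∑ l ∈ Finset.range n, (T2 l).card : ℕ) : ℝ) ≤ N * 4 := by
          push_cast
          have h3 : ∀ l ∈ Finset.range n, ((T2 l).card : ℝ) ≤ 4 := by
            intro l hl
            have h4 := (hst l (Finset.mem_range.mp hl)).cT2
            exact_mod_cast h4
          have h4 := Finset.sum_le_sum h3
          rw [Finset.sum_const, Finset.card_range, nsmul_eq_mul] at h4
          linarith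
        have h3 : ((KPB_S θ T2 n).card : ℝ) * (θ / 4 * N) ≤ N * 4 := h1.trans h2
        have h4 : ((KPB_S θ T2 n).card : ℝ) * (θ / 4) ≤ 4 := by
          have : ((KPB_S θ T2 n).card : ℝ) * (θ / 4) * N ≤ 4 * N := by linarith
          exact le_of_mul_le_mul_right this hNpos
        rw [le_div_iff₀ hθ]
        linarith
      have hctx : KCtx A X Finset.univ (remG (crossG G A) M (Finset.range n))
          (ptn (innerG G A) c n) (KPB_S θ T n) ε := by
        constructor
        · exact hε
        · exact hε1
        · exact Finset.subset_univ _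
        · exact fun v w h => ⟨Finset.mem_univ _, Finset.mem_univ _, h.1.2⟩
        · exact hP.1.1
        · intro v
          by_cases h : ptn (innerG G A) c n v = v
          · rw [h]
          · exact (hP.1.2 v h).2.symm
        · exact fun v hv => absurd (Finset.mem_univ v) hv
        · rw [Finset.univ_inter]
          exact hA
        · rw [← Finset.compl_eq_univ_sdiff]
          exact hAc
        · intro x hx
          have h1 := KPB_deg hPTN H hst x
          have h2 : (dg (crossG G A) x : ℝ) ≤ dg (remG (crossG G A) M (Finset.range n)) x +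
              (KPB_c T n x : ℝ) := by exact_mod_cast h1
          have h3 : dg (remG (crossG G A) M (Finset.range n)) x ≤
              (Finset.univ.filter fun b => b ∉ KPB_S θ T n ∧
                (remG (crossG G A) M (Finset.range n)).Adj x b).card + (KPB_S θ T n).card := by
            unfold dg dgs
            have h4 : (Finset.univ.filter fun w =>
                (remG (crossG G A) M (Finset.range n)).Adj x w) ⊆
                (Finset.univ.filter fun b => b ∉ KPB_S θ T n ∧
                (remG (crossG G A) M (Finset.range n)).Adj x b) ∪ KPB_S θ T n := by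
              intro w hw
              have hw2 := (Finset.mem_filter.mp hw).2
              rw [Finset.mem_union]
              by_cases hws : w ∈ KPB_S θ T n
              · right; exact hws
              · left; exact Finset.mem_filter.mpr ⟨Finset.mem_univ _, hws, hw2⟩
            exact (Finset.card_le_card h4).trans (Finset.card_union_le _ _)
          have h5 : (dg (remG (crossG G A) M (Finset.range n)) x : ℝ) ≤
              ((Finset.univ.filter fun b => b ∉ KPB_S θ T n ∧
                (remG (crossG G A) M (Finset.range n)).Adj x b).card : ℝ) +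
              ((KPB_S θ T n).card : ℝ) := by exact_mod_cast h3
          have h6 := htouch x
          have h7 := hcd x hx
          have h8 : θ * N ≤ ε * N := mul_le_mul_of_nonneg_right hθε hNpos.le
          have h9 : 0 ≤ ε * N := by positivity
          show (1 / 4 + 5 * ε) * N ≤ _
          have h10 : (1 / 4 + 10 * ε) * N = 1 / 4 * N + 10 * (ε * N) := by ring
          have h11 : (1 / 4 + 5 * ε) * N = 1 / 4 * N + 5 * (ε * N) := by ring
          have h12 : ε / 10 * N = ε * N / 10 := by ring
          rw [h10] at h7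
          rw [h11]
          rw [h12] at hS
          linarith
        · exact hS
        · have h1 : δ * N ≤ ε / 1000 * N := mul_le_mul_of_nonneg_right hδ3 hNpos.le
          have h2 : ε / 1000 * N ≤ ε / 10 * N := by
            refine mul_le_mul_of_nonneg_right ?_ hNpos.le
            linarith
          linarith
      have hr2 : ((X.filter fun x => ptn (innerG G A) c n x = x).card : ℝ) ≤
          ε / 1000 * Fintype.card V := by
        have h1 : δ * N ≤ ε / 1000 * N := mul_le_mul_of_nonneg_right hδ3 hNpos.le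
        exact hr.trans h1
      have hep : (8 * (KPB_S θ T2 n).card + 4) * Fintype.card V <
          ep (remG (crossG G A) M (Finset.range n)) X Xᶜ := by
        have h1 := KPB_ep hPTN H hst
        have h2 : (ep (crossG G A) X Xᶜ : ℝ) ≤
            ep (remG (crossG G A) M (Finset.range n)) X Xᶜ +
            ((∑ l ∈ Finset.range n, xch (ptn (innerG G A) c l) (M l) X : ℕ) : ℝ) := by
          exact_mod_cast h1
        have h3 : U ≤ 3 * (ep (crossG G A) X Xᶜ : ℝ) := by
          rw [hUdef]
          exact_mod_cast hU2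
        have h4 : η * U ≤ 1 / 12 * U := mul_le_mul_of_nonneg_right hη1 hU0
        have h5 : U / 4 ≤ ep (remG (crossG G A) M (Finset.range n)) X Xᶜ := by linarith
        have h6 : 4 * (128 / θ + 5) * N ≤ U := by
          have h7 : 4 * (128 / θ + 5) * N ≤ C0 * N := by
            refine mul_le_mul_of_nonneg_right ?_ hNpos.le
            rw [hC0]
            have : 0 ≤ 40 / η := by positivity
            linarith
          exact h7.trans hU1
        have h8 : (8 * ((KPB_S θ T2 n).card : ℝ) + 4) * N <
            ep (remG (crossG G A) M (Finset.range n)) X Xᶜ := by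
          have h9 : 8 * ((KPB_S θ T2 n).card : ℝ) + 4 ≤ 128 / θ + 4 := by
            have : 128 / θ = 8 * (16 / θ) := by ring
            rw [this]
            linarith
          have h10 : (8 * ((KPB_S θ T2 n).card : ℝ) + 4) * N ≤ (128 / θ + 4) * N :=
            mul_le_mul_of_nonneg_right h9 hNpos.le
          have h11 : (128 / θ + 4) * N < (128 / θ + 5) * N :=
            mul_lt_mul_of_pos_right (by linarith) hNpos
          linarith
        have h9 : (((8 * (KPB_S θ T2 n).card + 4) * Fintype.card V : ℕ) : ℝ) <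
            (ep (remG (crossG G A) M (Finset.range n)) X Xᶜ : ℝ) := by
          push_cast
          exact h8
        exact_mod_cast h9
      obtain ⟨μ, T', T2', hchg, hcov, hcT, hcT2, hdj, hmem, hxc⟩ :=
        hKSB V A X (KPB_S θ T n) (KPB_S θ T2 n) (remG (crossG G A) M (Finset.range n))
          (ptn (innerG G A) c n) ε hctx hr2 hb1 hep
      refine ⟨Function.update M n μ, Function.update T n T', Function.update T2 n T2', ?_⟩
      have u1 : ∀ l < n, Function.update M n μ l = M l := fun l hl =>
        Function.update_of_ne (by omega) _ _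
      have u2 : ∀ l < n, Function.update T n T' l = T l := fun l hl =>
        Function.update_of_ne (by omega) _ _
      have u3 : ∀ l < n, Function.update T2 n T2' l = T2 l := fun l hl =>
        Function.update_of_ne (by omega) _ _
      intro j hj
      rcases Nat.lt_succ_iff_lt_or_eq.mp hj with hj | rfl
      · exact (hst j hj).congr (fun l hl => u1 l (by omega)) (fun l hl => u2 l (by omega))
          (fun l hl => u3 l (by omega))
      · have e1 := KPB_rem_congr (crossG G A) M (Function.update M j μ) j u1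
        have e2 := KPB_S_congr θ T (Function.update T j T') j u2
        have e3 := KPB_S_congr θ T2 (Function.update T2 j T2') j u3
        constructor
        · rw [e1, Function.update_self, Function.update_self]; exact hchg
        · rw [Function.update_self]; exact hcov
        · rw [Function.update_self]; exact hcT
        · rw [Function.update_self]; exact hcT2
        · rw [Function.update_self, e3]; exact hdj
        · rw [Function.update_self, e2, Function.update_self]; exact hmem
        · rw [Function.update_self, e1]; exact hxc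
  obtain ⟨M, T, T2, hst⟩ := hind k le_rfl
  refine ⟨M, KPB_out hPTN H hst, ?_, ?_⟩
  · intro v
    have h1 := KPB_touch hPTN hSCN H le_rfl hst hθ hδ0 hδ1 hb2 v
    refine le_trans ?_ h1
    have h2 : ((Finset.range k).filter fun i => M i v ≠ ptn (innerG G A) c i v).card ≤
        KPB_c T k v := by
      unfold KPB_c
      refine Finset.card_le_card fun i hi => ?_
      obtain ⟨hi1, hi2⟩ := Finset.mem_filter.mp hi
      refine Finset.mem_filter.mpr ⟨hi1, ?_⟩
      by_contra h3
      exact hi2 ((hst i (Finset.mem_range.mp hi1)).chg.off v h3)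
    exact_mod_cast h2
  · have h1 := KPB_xs hPTN hSCN H le_rfl hst hε hδ0 η hδ2 hUη
    exact h1.trans (mul_le_mul_of_nonneg_right hη2 hU0)


end

end Pool.Agent.OF
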